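import Pool.Agent.H17.VG.TargetsD
import Pool.Agent.H27.LV.All

/-!
# MP_70ba79_ag: row GR of the board `vyc_modules`: the gradient of a smooth form
-/

set_option autoImplicit false

namespace Pool.Agent.H92.VG

open Pool.Agent.H17.VG Pool.Agent.H27.LV SC MvPolynomial

section

variable {k K : Type} [Field k] [Field K] [Algebra k K]

/-- homogeneous coordinates with a coordinate `1`: the coordinate with the largest pole -/
lemma exists_pole3 {n : ℕ} (v : DV k K) (x : Fin (n + 1) → K) (p : Fin (n + 1)) (hp : x p = 1) :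
    ∃ b, x b ≠ 0 ∧ v.ord (x b) = -(poleOrder v x : ℤ) := by
  by_cases hP : poleOrder v x = 0
  · refine ⟨p, by rw [hp]; exact one_ne_zero, ?_⟩
    rw [hP, hp, v.ord_one]
    simp
  · obtain ⟨b, -, hb⟩ := Finset.exists_mem_eq_sup Finset.univ ⟨p, Finset.mem_univ p⟩
      (fun i => (-(v.ord (x i))).toNat)
    have hb' : poleOrder v x = (-(v.ord (x b))).toNat := hb
    refine ⟨b, ?_, ?_⟩
    · intro h0
      rw [h0, v.ord_zero] at hb'
      exact hP (by simpa using hb')
    · omega

/-- values of polynomials with constant coefficients at integral points -/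
lemma eval_red {n : ℕ} (v : DV k K) (z : Fin (n + 1) → K) (a : Fin (n + 1) → k)
    (hz : ∀ i, 0 ≤ v.ord (z i)) (ha : ∀ i, ge v 1 (z i - algebraMap k K (a i)))
    (G : MvPolynomial (Fin (n + 1)) k) :
    ge v 0 (eval z (up K G)) ∧ ge v 1 (eval z (up K G) - algebraMap k K (eval a G)) := by
  induction G using MvPolynomial.induction_on with
  | C c =>
    unfold up
    rw [map_C, eval_C, eval_C, sub_self]
    exact ⟨ge_const v c, ge_zero v 1⟩
  | add G H hG hH =>
    unfold up at hG hH ⊢
    rw [map_add, map_add, map_add, map_add]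
    refine ⟨hG.1.add hH.1, ?_⟩
    have h := hG.2.add hH.2
    have e : eval z (MvPolynomial.map (algebraMap k K) G) +
        eval z (MvPolynomial.map (algebraMap k K) H) -
        (algebraMap k K (eval a G) + algebraMap k K (eval a H)) =
        eval z (MvPolynomial.map (algebraMap k K) G) - algebraMap k K (eval a G) +
        (eval z (MvPolynomial.map (algebraMap k K) H) - algebraMap k K (eval a H)) := by ring
    rw [e]
    exact h
  | mul_X G i hG =>
    unfold up at hG ⊢
    rw [map_mul, map_mul, map_mul, map_X, eval_X, eval_X, map_mul]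
    have hzi : ge v 0 (z i) := Or.inr (hz i)
    refine ⟨by simpa using hG.1.mul hzi, ?_⟩
    have h1 : ge v 1 ((eval z (MvPolynomial.map (algebraMap k K) G) -
        algebraMap k K (eval a G)) * z i) := by simpa using hG.2.mul hzi
    have h2 : ge v 1 (algebraMap k K (eval a G) * (z i - algebraMap k K (a i))) := by
      simpa using (ge_const v (eval a G)).mul (ha i)
    have e : eval z (MvPolynomial.map (algebraMap k K) G) * z i -
        algebraMap k K (eval a G) * algebraMap k K (a i) =
        (eval z (MvPolynomial.map (algebraMap k K) G) - algebraMap k K (eval a G)) * z i +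
        algebraMap k K (eval a G) * (z i - algebraMap k K (a i)) := by ring
    rw [e]
    exact h1.add h2

/-- homogeneity -/
lemma eval_scale {n e : ℕ} {G : MvPolynomial (Fin (n + 1)) K} (hG : G.IsHomogeneous e)
    (c : K) (x : Fin (n + 1) → K) : eval (fun i => c * x i) G = c ^ e * eval x G := by
  rw [eval_eq, eval_eq, Finset.mul_sum]
  refine Finset.sum_congr rfl fun d hd => ?_
  have h1 : ∏ i ∈ d.support, (c * x i) ^ d i = c ^ e * ∏ i ∈ d.support, x i ^ d i := by
    have h2 : d.degree = e := by
      by_contra hne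
      exact (mem_support_iff.1 hd) (hG.coeff_eq_zero hne)
    simp only [mul_pow, Finset.prod_mul_distrib]
    rw [Finset.prod_pow_eq_pow_sum]
    congr 2
  rw [h1]
  ring

end

theorem pf_GR : T_GR := by
  intro k K _ _ _ _ _ _ htr n e F hF hsm x p hp v
  obtain ⟨b, hb0, hb⟩ := exists_pole3 v x p hp
  obtain ⟨q, hq⟩ : ∃ q : ℕ, q = poleOrder v x := ⟨_, rfl⟩
  rw [← hq] at hb ⊢
  have hu0 := v.unif_ne_zero
  obtain ⟨t, ht⟩ : ∃ t : K, t = v.unif ^ q := ⟨_, rfl⟩
  have ht0 : t ≠ 0 := by rw [ht]; exact pow_ne_zero _ hu0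
  have hto : v.ord t = q := by
    rw [ht, v.ord_pow, v.ord_unif, mul_one]
  have hz : ∀ i, 0 ≤ v.ord (t * x i) := by
    intro i
    by_cases h0 : x i = 0
    · rw [h0, mul_zero, v.ord_zero]
    · rw [v.ord_mul' ht0 h0, hto]
      have := npole_le v x i
      rw [← hq] at this
      omega
  choose a ha using fun i => (rat k K htr v).2 (t * x i) (hz i)
  have ha0 : a ≠ 0 := by
    intro h
    have h1 := ha b
    rw [h] at h1
    simp only [Pi.zero_apply, map_zero, sub_zero] at h1
    rcases h1 with h1 | h1
    · exact (mul_ne_zero ht0 hb0) h1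
    · rw [v.ord_mul' ht0 hb0, hto, hb] at h1
      omega
  have hder : ∀ j, pderiv j (up K F) = up K (pderiv j F) := by
    intro j
    unfold up
    rw [pderiv_map]
  have hhom : ∀ j, (up K (pderiv j F)).IsHomogeneous e := by
    intro j
    have h := hF.pderiv (i := j)
    rw [Nat.add_sub_cancel] at h
    exact h.map _
  have hscale : ∀ j, eval x (pderiv j (up K F)) =
      (t ^ e)⁻¹ * eval (fun i => t * x i) (up K (pderiv j F)) := by
    intro j
    rw [hder j, eval_scale (hhom j), inv_mul_cancel_left₀ (pow_ne_zero _ ht0)]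
  have hinv : v.ord ((t ^ e)⁻¹) = -(e * q : ℤ) := by
    rw [v.ord_inv, v.ord_pow, hto]
  constructor
  · intro j
    rw [hscale j]
    have h1 := (eval_red v _ a hz ha (pderiv j F)).1
    have h2 : ge v (-(e * q : ℤ)) ((t ^ e)⁻¹) := Or.inr hinv.ge
    have h3 := h2.mul h1
    rwa [add_zero] at h3
  · obtain ⟨j, hj⟩ := hsm a ha0
    refine ⟨j, ?_⟩
    have h1 := (eval_red v _ a hz ha (pderiv j F)).2
    obtain ⟨w, hw⟩ : ∃ w, w = eval (fun i => t * x i) (up K (pderiv j F)) := ⟨_, rfl⟩
    rw [← hw] at h1
    have hc : algebraMap k K (eval a (pderiv j F)) ≠ 0 := by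
      rw [Ne, map_eq_zero]
      exact hj
    have hwo : w ≠ 0 ∧ v.ord w = 0 := by
      have e1 : w = algebraMap k K (eval a (pderiv j F)) +
          (w - algebraMap k K (eval a (pderiv j F))) := by ring
      have h2 := v.ord_add_eq_left (x := algebraMap k K (eval a (pderiv j F)))
        (y := w - algebraMap k K (eval a (pderiv j F))) hc (fun h0 => by
          rw [v.ord_base]
          have := h1.resolve_left h0
          omega)
      rw [← e1, v.ord_base] at h2
      exact h2
    rw [hscale j, ← hw]
    refine ⟨mul_ne_zero (inv_ne_zero (pow_ne_zero _ ht0)) hwo.1, ?_⟩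
    rw [v.ord_mul' (inv_ne_zero (pow_ne_zero _ ht0)) hwo.1, hinv, hwo.2, add_zero]

end Pool.Agent.H92.VG
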