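import Pool.Agent.H17.VG.TargetsG
import Pool.Agent.H27.LV.All
import Pool.Agent.H27.LV.Gen

/-!
# MP_70ba79_ag: row BS of the board `vyc_modules`: decomposition of forms along a generic form
-/

set_option autoImplicit false

namespace Pool.Agent.H92.VG

open Pool.Agent.H17.VG Pool.Agent.H27.LV SC MvPolynomial

/-- coefficients of `frm g` -/
lemma coeff_frm {K : Type} [Field K] {n d : ℕ} (g : Mon (n + 1) d → K) (M : Mon (n + 1) d) :
    coeff (fs M.1) (frm g) = g M := by
  classical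
  unfold frm
  rw [coeff_sum, Finset.sum_eq_single M]
  · rw [coeff_C_mul, coeff_mono, if_pos rfl, mul_one]
  · intro N _ hN
    rw [coeff_C_mul, coeff_mono, if_neg, mul_zero]
    intro h
    exact hN (Subtype.ext h)
  · intro h
    exact absurd (Finset.mem_univ M) h

/-- the monomial `X_a X_b ^ e` -/
def wm (n e : ℕ) (q : Fin (n + 1) × Fin (n + 1)) : Mon (n + 1) (e + 1) :=
  ⟨fun l => (if l = q.1 then 1 else 0) + (if l = q.2 then e else 0), by
    simp [Finset.sum_add_distrib]
    omega⟩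

lemma fs_wm (n e : ℕ) (q : Fin (n + 1) × Fin (n + 1)) :
    fs (wm n e q).1 = Finsupp.single q.1 1 + Finsupp.single q.2 e := by
  classical
  ext l
  rw [fs_apply, Finsupp.add_apply, Finsupp.single_apply, Finsupp.single_apply]
  simp only [wm]
  congr 1
  · simp only [eq_comm]
  · simp only [eq_comm]

lemma Wm_wm (n e : ℕ) (q : Fin (n + 1) × Fin (n + 1)) : Wm (wm n e q) :=
  ⟨q.1, q.2, fun l => by simp [wm]⟩

lemma exists_wm {n e : ℕ} {M : Mon (n + 1) (e + 1)} (h : Wm M) : ∃ q, M = wm n e q := by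
  obtain ⟨i, j, h⟩ := h
  refine ⟨(i, j), Subtype.ext (funext fun l => ?_)⟩
  rw [h l]
  simp [wm]

section

variable {k K : Type} [Field k] [Field K] [Algebra k K] {n e : ℕ}

/-- the linear vector field applied to `F` -/
noncomputable def lv (F : MvPolynomial (Fin (n + 1)) K) (A : Matrix (Fin (n + 1)) (Fin (n + 1)) K) :
    MvPolynomial (Fin (n + 1)) K := ∑ i, (∑ j, C (A i j) * X j) * pderiv i F

lemma lv_homog {F : MvPolynomial (Fin (n + 1)) K} (hF : F.IsHomogeneous (e + 1))
    (A : Matrix (Fin (n + 1)) (Fin (n + 1)) K) : (lv F A).IsHomogeneous (e + 1) := by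
  unfold lv
  refine IsHomogeneous.sum _ _ _ fun i _ => ?_
  have h1 : (∑ j, C (A i j) * X j : MvPolynomial (Fin (n + 1)) K).IsHomogeneous 1 := by
    refine IsHomogeneous.sum _ _ _ fun j _ => ?_
    simpa using (isHomogeneous_C (Fin (n + 1)) (A i j)).mul (isHomogeneous_X K j)
  have h2 := hF.pderiv (i := i)
  rw [Nat.add_sub_cancel] at h2
  rw [add_comm e 1]
  exact h1.mul h2

lemma coeff_lv (F : MvPolynomial (Fin (n + 1)) K) (A : Matrix (Fin (n + 1)) (Fin (n + 1)) K)
    (s : Fin (n + 1) →₀ ℕ) : coeff s (lv F A) =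
      ∑ p : Fin (n + 1) × Fin (n + 1), coeff s (X p.2 * pderiv p.1 F) * A p.1 p.2 := by
  unfold lv
  rw [coeff_sum, Fintype.sum_prod_type]
  refine Finset.sum_congr rfl fun i _ => ?_
  rw [Finset.sum_mul, coeff_sum]
  refine Finset.sum_congr rfl fun j _ => ?_
  rw [mul_assoc, coeff_C_mul, mul_comm]

end

theorem pf_BS (hFE : T_FE) : T_BS := by
  classical
  intro k K _ _ _ _ n e c he hc
  obtain ⟨F, hF⟩ : ∃ F, F = up K (frm c) := ⟨_, rfl⟩
  have hFh : F.IsHomogeneous (e + 1) := by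
    rw [hF]
    exact (frm_homog c).map _
  rw [← hF]
  obtain ⟨N, hN⟩ : ∃ N : Matrix (Fin (n + 1) × Fin (n + 1)) (Fin (n + 1) × Fin (n + 1)) K,
    N = Matrix.of fun q p => coeff (fs (wm n e q).1) (X p.2 * pderiv p.1 F) := ⟨_, rfl⟩
  have hNdet : N.det ≠ 0 := by
    have h1 := hFE k n e c he hc
    have h2 : N = (Matrix.of fun q p : Fin (n + 1) × Fin (n + 1) =>
        coeff (Finsupp.single q.1 1 + Finsupp.single q.2 e)
          (X p.2 * pderiv p.1 (frm c))).map (algebraMap k K) := by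
      rw [hN]
      ext q p
      rw [Matrix.of_apply, Matrix.map_apply, Matrix.of_apply, fs_wm, hF]
      unfold up
      rw [pderiv_map, ← coeff_map, map_mul, map_X]
    rw [h2, ← RingHom.mapMatrix_apply, ← RingHom.map_det, Ne, map_eq_zero]
    exact h1
  have hcoeff : ∀ (A : Matrix (Fin (n + 1)) (Fin (n + 1)) K) q,
      coeff (fs (wm n e q).1) (lv F A) = N.mulVec (fun p => A p.1 p.2) q := by
    intro A q
    rw [coeff_lv, hN, Matrix.mulVec]
    rfl
  constructor
  · intro G hG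
    obtain ⟨b, hb⟩ : ∃ b : Fin (n + 1) × Fin (n + 1) → K,
      b = fun q => coeff (fs (wm n e q).1) G := ⟨_, rfl⟩
    obtain ⟨w, hw⟩ : ∃ w, N.mulVec w = b := by
      refine ⟨N⁻¹.mulVec b, ?_⟩
      rw [Matrix.mulVec_mulVec, Matrix.mul_nonsing_inv _ (isUnit_iff_ne_zero.2 hNdet),
        Matrix.one_mulVec]
    obtain ⟨A, hA⟩ : ∃ A : Matrix (Fin (n + 1)) (Fin (n + 1)) K,
      A = Matrix.of fun i j => w (i, j) := ⟨_, rfl⟩
    have hAw : (fun p : Fin (n + 1) × Fin (n + 1) => A p.1 p.2) = w := by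
      rw [hA]
      rfl
    have hH : (G - lv F A).IsHomogeneous (e + 1) := hG.sub (lv_homog hFh A)
    refine ⟨fun M => coeff (fs M.1) (G - lv F A), A, ?_, ?_⟩
    · intro M hM
      obtain ⟨q, rfl⟩ := exists_wm hM
      change coeff (fs (wm n e q).1) (G - lv F A) = 0
      rw [coeff_sub, hcoeff, hAw, hw, hb, sub_self]
    · rw [frm_coeff hH]
      change G = G - lv F A + lv F A
      rw [sub_add_cancel]
  · intro g A hg h0
    change frm g + lv F A = 0 at h0
    have hA : (fun p : Fin (n + 1) × Fin (n + 1) => A p.1 p.2) = 0 := by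
      apply Matrix.eq_zero_of_mulVec_eq_zero hNdet
      funext q
      have h1 := congrArg (coeff (fs (wm n e q).1)) h0
      rw [coeff_add, coeff_frm, hg _ (Wm_wm n e q), zero_add, hcoeff, coeff_zero] at h1
      exact h1
    have hA0 : A = 0 := by
      ext i j
      exact congrFun hA (i, j)
    refine ⟨?_, hA0⟩
    have h1 : lv F (0 : Matrix (Fin (n + 1)) (Fin (n + 1)) K) = 0 := by
      unfold lv
      simp
    rw [hA0, h1, add_zero] at h0
    exact frm_zero h0

end Pool.Agent.H92.VG
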