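import Pool.Agent.H17.VG.TargetsD
import Pool.Agent.H27.LV.All

/-!
# MP_70ba79_ag: row DA of the board `vyc_modules`: first estimate of the determinant
-/

set_option autoImplicit false

namespace Pool.Agent.H92.VG

open Pool.Agent.H17.VG Pool.Agent.H27.LV SC MvPolynomial

section

variable {R k K : Type} [Field R] [Field k] [IsAlgClosed k] [CharZero k] [Field K]
  [Algebra k K] [Algebra R K] [Algebra.EssFiniteType k K]

/-- the local lift of the velocity of a rational operator -/
lemma lift_velocity (hLL : T_LL) (htr : Algebra.trdeg k K = 1) {n : ℕ} (D : Derivation k K K)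
    (hD : D ≠ 0) (x : Fin (n + 1) → K) (τ : Op R K n) (hτ : RatOp k τ) (v : DV k K)
    (a : Fin (n + 1)) :
    ge v (-(poleOrder v x : ℤ)) (opV τ x a - τ.1 v.unif / D v.unif * D (x a)) := by
  unfold opV
  have h1 := hLL R k K htr τ.1 hτ.1 D hD v (x a)
  have h2 : ge v (-(poleOrder v x : ℤ)) (∑ j, τ.2 a j * x j) := by
    refine ge_sum v _ _ _ fun j _ => ?_
    obtain ⟨b, hb⟩ := hτ.2 a j
    rw [hb]
    have h3 : ge v (-(poleOrder v x : ℤ)) (x j) := Or.inr (npole_le v x j)
    simpa using (ge_const v b).mul h3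
  have h3 := (h1.mono (npole_le v x a)).sub h2
  have e : τ.1 (x a) - ∑ j, τ.2 a j * x j - τ.1 v.unif / D v.unif * D (x a) =
      τ.1 (x a) - τ.1 v.unif / D v.unif * D (x a) - ∑ j, τ.2 a j * x j := by ring
  rw [e]
  exact h3

/-- the normalised derivative of the coordinates -/
lemma norm_der (htr : Algebra.trdeg k K = 1) {n : ℕ} (D : Derivation k K K)
    (hD : D ≠ 0) (x : Fin (n + 1) → K) (v : DV k K) :
    ∃ c : K, (∀ a, ge v (ordD v D - poleOrder v x) (D (x a) - c * x a)) ∧
      ge v (ordD v D - 1) c := by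
  obtain ⟨q, hq⟩ : ∃ q : ℕ, q = poleOrder v x := ⟨_, rfl⟩
  rw [← hq]
  have hu0 := v.unif_ne_zero
  obtain ⟨t, ht⟩ : ∃ t : K, t = v.unif ^ q := ⟨_, rfl⟩
  have ht0 : t ≠ 0 := by rw [ht]; exact pow_ne_zero _ hu0
  have hto : v.ord t = q := by
    rw [ht, v.ord_pow, v.ord_unif, mul_one]
  have hdor := dor k K htr D hD v
  refine ⟨-(D t / t), fun a => ?_, ?_⟩
  · have h1 : 0 ≤ v.ord (t * x a) := by
      by_cases h0 : x a = 0
      · rw [h0, mul_zero, v.ord_zero]
      · rw [v.ord_mul' ht0 h0, hto]
        have := npole_le v x a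
        rw [← hq] at this
        omega
    have h2 := hdor.2.1.1 _ h1
    have h3 : ge v (-(q : ℤ)) t⁻¹ := Or.inr (by rw [v.ord_inv, hto])
    have h4 := h2.mul h3
    have e : D (x a) - -(D t / t) * x a = D (t * x a) * t⁻¹ := by
      rw [D.leibniz, smul_eq_mul, smul_eq_mul]
      field_simp
      ring
    rw [e]
    exact h4.mono (by omega)
  · have h1 := hdor.2.1.2 t ht0
    have h3 : ge v (-(q : ℤ)) t⁻¹ := Or.inr (by rw [v.ord_inv, hto])
    have h4 := (h1.mul h3).neg
    rw [← div_eq_mul_inv] at h4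
    exact h4.mono (by omega)

end

/-- adding multiples of one column to the others -/
lemma det_col {F : Type*} [Field F] {m : Type*} [Fintype m] [DecidableEq m] {A B : Matrix m m F}
    (c : m → F) (k : m) (hk : c k = 0) (h : ∀ i j, A i j = B i j + c j * B i k) :
    A.det = B.det := by
  rw [← Matrix.det_transpose A, ← Matrix.det_transpose B]
  exact Matrix.det_eq_of_forall_row_eq_smul_add_const c k hk fun i j => h j i

theorem pf_DA (hLL : T_LL) : T_DA := by
  intro R k K _ _ _ _ _ _ _ _ htr n s D hD x p hp ι _ _ τ i j e0 hτ v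
  obtain ⟨c, hc, _⟩ := norm_der htr D hD x v
  -- first column operation
  obtain ⟨M, hM⟩ : ∃ M : Matrix (ι ⊕ Fin 2) (ι ⊕ Fin 2) K,
    M = (bigM D x τ i j).submatrix e0 id := ⟨_, rfl⟩
  obtain ⟨A, hA⟩ : ∃ A : Matrix (ι ⊕ Fin 2) (ι ⊕ Fin 2) K, A = Matrix.of fun r l =>
    M r l + (Sum.elim (fun a => -((τ a).1 v.unif / D v.unif)) (fun _ => 0) l) * M r (Sum.inr 0) :=
    ⟨_, rfl⟩
  obtain ⟨A', hA'⟩ : ∃ A' : Matrix (ι ⊕ Fin 2) (ι ⊕ Fin 2) K, A' = Matrix.of fun r l =>
    A r l + (Sum.elim (fun _ => 0) (fun t : Fin 2 => if t = 0 then -c else 0) l) *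
      A r (Sum.inr 1) := ⟨_, rfl⟩
  have h1 : A.det = M.det := by
    refine det_col
      (Sum.elim (fun a => -((τ a).1 v.unif / D v.unif)) (fun _ => 0)) (Sum.inr 0) rfl ?_
    intro r l
    rw [hA, Matrix.of_apply]
  have h2 : A'.det = A.det := by
    refine det_col
      (Sum.elim (fun _ => 0) (fun t : Fin 2 => if t = 0 then -c else 0)) (Sum.inr 1)
      (by simp) ?_
    intro r l
    rw [hA', Matrix.of_apply]
  rw [← hM, ← h1, ← h2]
  have hq : ge v (-(poleOrder v x : ℤ)) (0 : K) := ge_zero v _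
  have hx : ∀ a, ge v (-(poleOrder v x : ℤ)) (x a) := fun a => Or.inr (npole_le v x a)
  have hentry : ∀ r l, ge v (0 + (Sum.elim (fun _ => -(poleOrder v x : ℤ))
      (fun t : Fin 2 => if t = 0 then ordD v D - poleOrder v x else -(poleOrder v x : ℤ)) l))
      (A' r l) := by
    intro r l
    rw [zero_add, hA', Matrix.of_apply, hA, Matrix.of_apply, Matrix.of_apply, hM]
    simp only [Matrix.submatrix_apply, id]
    rcases l with l | t
    · simp only [Sum.elim_inl, zero_mul, add_zero, bigM, Matrix.of_apply]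
      rcases e0 r with a | b
      · have h3 := lift_velocity hLL htr D hD x (τ l) (hτ l) v a
        simp only [if_pos]
        rw [neg_mul, ← sub_eq_add_neg]
        exact h3
      · simp only [mul_zero, add_zero]
        split_ifs
        · exact hx _
        · exact hq
    · fin_cases t
      · simp only [Sum.elim_inr, zero_mul, add_zero, bigM, Matrix.of_apply]
        rcases e0 r with a | b
        · have h3 := hc a
          simp only [Fin.zero_eta, if_true, Fin.isValue, one_ne_zero, if_false]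
          rw [neg_mul, ← sub_eq_add_neg]
          exact h3
        · simp only [mul_zero, add_zero]
          exact ge_zero v _
      · simp only [Sum.elim_inr, zero_mul, add_zero, bigM, Matrix.of_apply]
        rcases e0 r with a | b
        · simp only [Fin.mk_one, Fin.isValue, one_ne_zero, if_false, zero_mul, add_zero]
          exact hx a
        · simp only [Fin.mk_one, Fin.isValue, one_ne_zero, if_false, zero_mul, add_zero]
          exact hq
  have h3 := Pool.Agent.H70.LV.wdt k K v (ι ⊕ Fin 2) A' (fun _ => 0) _ hentry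
  refine h3.mono ?_
  have hcard : Fintype.card ι + 2 = n + 1 + s := by
    have := Fintype.card_congr e0
    simpa using this
  simp only [Finset.sum_const_zero, Fintype.sum_sum_type, Sum.elim_inl, Sum.elim_inr,
    Finset.sum_const, Finset.card_univ, Fin.sum_univ_two, if_true, one_ne_zero, if_false,
    nsmul_eq_mul]
  have h4 : (Fintype.card ι : ℤ) = n + 1 + s - 2 := by
    have : ((Fintype.card ι + 2 : ℕ) : ℤ) = ((n + 1 + s : ℕ) : ℤ) := by rw [hcard]
    push_cast at this
    linarith
  rw [h4]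
  apply le_of_eq
  ring

end Pool.Agent.H92.VG
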