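import Pool.Agent.H17.VG.TargetsF
import Pool.Agent.H92.VG.GR

/-!
# MP_70ba79_ag: row VD of the board `vyc_modules`
-/

set_option autoImplicit false

namespace Pool.Agent.H92.VG

open Pool.Agent.H17.VG Pool.Agent.H27.LV SC MvPolynomial

section

variable {k K : Type} [Field k] [IsAlgClosed k] [CharZero k] [Field K] [Algebra k K]
  [Algebra.EssFiniteType k K]

/-- order of the value of a form with constant coefficients -/
lemma ge_form (htr : Algebra.trdeg k K = 1) {n d : ℕ} {G : MvPolynomial (Fin (n + 1)) k}
    (hG : G.IsHomogeneous d) (x : Fin (n + 1) → K) (v : DV k K) :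
    ge v (-((d : ℤ) * poleOrder v x)) (eval x (up K G)) := by
  obtain ⟨q, hq⟩ : ∃ q : ℕ, q = poleOrder v x := ⟨_, rfl⟩
  rw [← hq]
  obtain ⟨t, ht⟩ : ∃ t : K, t = v.unif ^ q := ⟨_, rfl⟩
  have ht0 : t ≠ 0 := by rw [ht]; exact pow_ne_zero _ v.unif_ne_zero
  have hto : v.ord t = q := by rw [ht, v.ord_pow, v.ord_unif, mul_one]
  have hz : ∀ i, 0 ≤ v.ord (t * x i) := by
    intro i
    by_cases h0 : x i = 0
    · rw [h0, mul_zero, v.ord_zero]
    · rw [v.ord_mul' ht0 h0, hto]
      have := npole_le v x i
      rw [← hq] at this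
      omega
  choose a ha using fun i => (rat k K htr v).2 (t * x i) (hz i)
  have h1 := (eval_red v _ a hz ha G).1
  have hhom : (up K G).IsHomogeneous d := hG.map _
  have h2 : eval x (up K G) = (t ^ d)⁻¹ * eval (fun i => t * x i) (up K G) := by
    rw [eval_scale hhom, inv_mul_cancel_left₀ (pow_ne_zero _ ht0)]
  have h3 : ge v (-((d : ℤ) * q)) ((t ^ d)⁻¹) := Or.inr (by rw [v.ord_inv, v.ord_pow, hto])
  rw [h2]
  simpa using h3.mul h1

end

lemma up_mono {k K : Type} [Field k] [Field K] [Algebra k K] {n : ℕ} (f : Fin (n + 1) → ℕ) :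
    up K (mono k f) = mono K f := by
  unfold up mono
  rw [map_monomial, map_one]

theorem pf_VD : T_VD := by
  intro k K _ _ _ _ _ _ htr n d c z x p hd hp hu hz
  obtain ⟨u, hu'⟩ : ∃ u, u = eval x (up K (frm c)) := ⟨_, rfl⟩
  rw [← hu'] at hu
  rw [← hu'] at hz
  rw [← hu']
  -- numerators
  have hnum : ∀ (v : DV k K) (M : Mon (n + 1) d),
      ge v (-((d : ℤ) * poleOrder v x)) (∏ i, x i ^ M.1 i) := by
    intro v M
    have h := ge_form htr (isHomogeneous_mono (K := k) M) x v
    rwa [up_mono, eval_mono] at h
  have huge : ∀ v : DV k K, -((d : ℤ) * poleOrder v x) ≤ v.ord u := by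
    intro v
    have h := ge_form htr (frm_homog c) x v
    rw [← hu'] at h
    exact h.resolve_left hu
  -- the monomial with the largest pole
  have hbig : ∀ v : DV k K, ∃ M : Mon (n + 1) d, z M ≠ 0 ∧
      v.ord (z M) = -((d : ℤ) * poleOrder v x) - v.ord u := by
    intro v
    obtain ⟨b, hb0, hb⟩ := exists_pole3 v x p hp
    refine ⟨⟨fun i => if i = b then d else 0, by simp⟩, ?_⟩
    have h1 : ∏ i, x i ^ (if i = b then d else 0) = x b ^ d := by
      rw [Finset.prod_eq_single b]
      · rw [if_pos rfl]
      · intro i _ hi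
        rw [if_neg hi, pow_zero]
      · intro h
        exact absurd (Finset.mem_univ b) h
    rw [hz]
    simp only [h1]
    refine ⟨div_ne_zero (pow_ne_zero _ hb0) hu, ?_⟩
    rw [v.ord_div (pow_ne_zero _ hb0) hu, v.ord_pow, hb]
    ring
  refine ⟨?_, ?_, ?_⟩
  · intro v hv
    obtain ⟨M, _, hM⟩ := hbig v
    have h1 := hv M
    rw [hM] at h1
    have h2 := huge v
    linarith
  · have hpole : ∀ v : DV k K, (poleOrder v z : ℤ) = (d : ℤ) * poleOrder v x + v.ord u := by
      intro v
      apply le_antisymm
      · have h1 := huge v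
        have h2 := poleOrder_le v z ((d : ℤ) * poleOrder v x + v.ord u).toNat (fun M => by
          rw [Int.toNat_of_nonneg (by linarith)]
          by_cases h0 : z M = 0
          · rw [h0, v.ord_zero]
            linarith
          · have h3 : (∏ i, x i ^ M.1 i) ≠ 0 := by
              intro h4
              rw [hz, h4, zero_div] at h0
              exact h0 rfl
            rw [hz, v.ord_div h3 hu]
            have := (hnum v M).resolve_left h3
            linarith)
        have h3 := Int.toNat_of_nonneg (show 0 ≤ (d : ℤ) * poleOrder v x + v.ord u by linarith)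
        have h4 : (poleOrder v z : ℤ) ≤ (((d : ℤ) * poleOrder v x + v.ord u).toNat : ℤ) := by
          exact_mod_cast h2
        linarith
      · obtain ⟨M, _, hM⟩ := hbig v
        have h1 := npole_le v z M
        rw [hM] at h1
        linarith
    have e1 : ((deg k z : ℕ) : ℤ) = ((d * deg k x : ℕ) : ℤ) := by
      rw [cast_deg htr]
      push_cast
      rw [cast_deg htr x]
      simp only [hpole]
      have f1 := pfi k K htr (Fin (n + 1)) x
      have f2 := pfm k K htr u
      have f3 : (Function.support fun v : DV k K => (poleOrder v x : ℤ)).Finite := by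
        refine f1.subset fun v hv => ?_
        intro h0
        apply hv
        change ((poleOrder v x : ℕ) : ℤ) = 0
        rw [h0]
        rfl
      have f4 : (Function.support fun v : DV k K => (d : ℤ) * (poleOrder v x : ℤ)).Finite := by
        refine f3.subset fun v hv => ?_
        intro h0
        apply hv
        change (d : ℤ) * (poleOrder v x : ℤ) = 0
        rw [show (poleOrder v x : ℤ) = 0 from h0, mul_zero]
      rw [finsum_add_distrib f4 f2.1, f2.2, add_zero]
      exact (mul_finsum _ _).symm
    exact_mod_cast e1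
  · rintro ⟨M, hM⟩
    by_contra hc
    push Not at hc
    apply hM
    choose y hy using hc
    have hx : x = fun i => algebraMap k K (y i) := funext fun i => (hy i).symm
    refine ⟨(∏ i, y i ^ M.1 i) / eval y (frm c), ?_⟩
    rw [hz, hu', map_div₀, map_prod]
    congr 1
    · refine Finset.prod_congr rfl fun i _ => ?_
      rw [map_pow, hy i]
    · rw [hx]
      unfold up
      exact (eval_evk_map (K := K) y (frm c)).symm

end Pool.Agent.H92.VG
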