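import Pool.Agent.H17.VG.TargetsC
import Pool.Agent.H92.VGH.LinC

/-!
# MP_70ba79_ag: rows R1, OE, OI, CC of the board `vyc_modules`
-/

set_option autoImplicit false

open Module

namespace Pool.Agent.H92.VG

open Pool.Agent.H17.VG Pool.Agent.H92.VGH

/-- Row CC (without the other rows). -/
theorem pf_CC : T_C := by
  intro K V E N _ _ _ _ _ _ _ _ _ _ B n δ hV hN hδ hspan hH
  have hδ1 : 1 ≤ δ := by omega
  have h := linC B n δ hδ1 hN ?_ ?_ hδ
  · exact h
  · intro U hU
    rw [eq_top_iff, ← hspan, Submodule.span_le]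
    rintro _ ⟨v, q, rfl⟩
    exact hU v q
  · intro φ hφ
    have h1 := hH φ hφ
    omega

/-- Row R1. -/
theorem pf_R1 : T_R1 := by
  intro K V E N _ _ _ _ _ _ _ _ _ B U hrk hspan hU
  set T : V →ₗ[K] E →ₗ[K] (N ⧸ U) := B.compr₂ U.mkQ with hT
  have hTapp : ∀ v R, T v R = U.mkQ (B v R) := fun v R => rfl
  have hT0 : ∀ v R, T v R = 0 ↔ B v R ∈ U := by
    intro v R
    rw [hTapp, Submodule.mkQ_apply, Submodule.Quotient.mk_eq_zero]
  have hA : ∀ (R : E) (v w : V), ∃ s t : K, (s ≠ 0 ∨ t ≠ 0) ∧ s • T v R + t • T w R = 0 := by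
    intro R v w
    by_cases hv : B v R ∈ U
    · refine ⟨1, 0, Or.inl one_ne_zero, ?_⟩
      rw [zero_smul, add_zero, one_smul]
      exact (hT0 v R).2 hv
    · have h2 : B v R ∈ U ⊔ Submodule.span K {B v R} :=
        Submodule.mem_sup_right (Submodule.mem_span_singleton_self _)
      have h3 := finrank_succ_le le_sup_left h2 hv
      have h4 : B w R ∈ U ⊔ Submodule.span K {B v R} := by
        by_contra hw
        have h5 : U ⊔ Submodule.span K {B v R} ≤ U ⊔ Submodule.span K {w | ∃ v, w = B v R} := by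
          refine sup_le_sup_left (Submodule.span_mono ?_) _
          rintro _ rfl
          exact ⟨v, rfl⟩
        have h6 : B w R ∈ U ⊔ Submodule.span K {w | ∃ v, w = B v R} :=
          Submodule.mem_sup_right (Submodule.subset_span ⟨w, rfl⟩)
        have h7 := finrank_succ_le h5 h6 hw
        have h8 := hrk R
        omega
      obtain ⟨u, hu, z, hz, huz⟩ := Submodule.mem_sup.1 h4
      obtain ⟨c, rfl⟩ := Submodule.mem_span_singleton.1 hz
      refine ⟨-c, 1, Or.inr one_ne_zero, ?_⟩
      rw [hTapp, hTapp, one_smul, ← map_smul, ← map_add, ← huz, Submodule.mkQ_apply,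
        Submodule.Quotient.mk_eq_zero]
      have : -c • B v R + (u + c • B v R) = u := by
        rw [neg_smul]
        abel
      rw [this]
      exact hu
  have hB : ¬ ∃ m : N ⧸ U, ∀ v R, ∃ c : K, T v R = c • m := by
    rintro ⟨m, hm⟩
    obtain ⟨m', rfl⟩ := U.mkQ_surjective m
    have h1 : U ⊔ Submodule.span K {m'} = ⊤ := by
      rw [eq_top_iff, ← hspan, Submodule.span_le]
      rintro _ ⟨v, e, rfl⟩
      obtain ⟨c, hc⟩ := hm v e
      rw [hTapp, ← map_smul, ← sub_eq_zero, ← map_sub, Submodule.mkQ_apply,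
        Submodule.Quotient.mk_eq_zero] at hc
      have h2 : B v e = (B v e - c • m') + c • m' := by abel
      rw [h2]
      exact Submodule.add_mem_sup hc (Submodule.smul_mem _ _ (Submodule.mem_span_singleton_self _))
    have h2 : finrank K (U ⊔ Submodule.span K {m'} : Submodule K N) ≤
        finrank K U + finrank K (Submodule.span K {m'}) :=
      Submodule.finrank_add_le_finrank_add_finrank _ _
    rw [h1, finrank_top] at h2
    have h3 : finrank K (Submodule.span K {m'}) ≤ 1 := by
      have h5 := finrank_span_le_card (R := K) ({m'} : Set N)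
      simpa using h5
    omega
  obtain ⟨φ, hφ, h⟩ := common_kernel T hA hB
  exact ⟨φ, hφ, fun v q hv => (hT0 v q).1 (h v hv q)⟩

/-- The determinant along a line. -/
lemma det_line {K : Type*} [Field K] {ι : Type*} [Fintype ι] [DecidableEq ι]
    (A B : Matrix ι ι K) (h : A.det ≠ 0 ∨ B.det ≠ 0) :
    {ε : K | (A + ε • B).det = 0}.Finite := by
  classical
  set p : Polynomial K := ((Polynomial.X : Polynomial K) • B.map Polynomial.C +
    A.map Polynomial.C).det with hp
  have hp0 : p ≠ 0 := by
    intro h0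
    rcases h with h | h
    · apply h
      rw [← Polynomial.coeff_det_X_add_C_zero B A, ← hp, h0, Polynomial.coeff_zero]
    · apply h
      rw [← Polynomial.coeff_det_X_add_C_card B A, ← hp, h0, Polynomial.coeff_zero]
  refine (p.roots.toFinset.finite_toSet).subset ?_
  intro ε hε
  rw [Finset.mem_coe, Multiset.mem_toFinset, Polynomial.mem_roots hp0]
  rw [Set.mem_ofPred] at hε
  rw [Polynomial.IsRoot, hp, ← Polynomial.coe_evalRingHom, RingHom.map_det, ← hε]
  congr 1
  ext i j
  simp only [RingHom.mapMatrix_apply, Matrix.map_apply, Matrix.add_apply, Matrix.smul_apply,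
    Polynomial.coe_evalRingHom, Polynomial.eval_add, smul_eq_mul, Polynomial.eval_mul,
    Polynomial.eval_X, Polynomial.eval_C]
  ring

/-- A linear map which sends an independent family to the standard basis. -/
lemma exists_coord {K N : Type*} [Field K] [AddCommGroup N] [Module K N] {ι : Type*} [Fintype ι]
    [DecidableEq ι] (x : ι → N) (hx : LinearIndependent K x) :
    ∃ g : N →ₗ[K] (ι → K), ∀ a, g (x a) = Pi.single a 1 := by
  have hinj : Function.Injective (Fintype.linearCombination K x) :=
    linearIndependent_iff_injective_fintypeLinearCombination.1 hx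
  obtain ⟨g, hg⟩ := (Fintype.linearCombination K x).exists_leftInverse_of_injective
    (LinearMap.ker_eq_bot.2 hinj)
  refine ⟨g, fun a => ?_⟩
  have h1 := LinearMap.congr_fun hg (Pi.single a (1 : K))
  simpa [Fintype.linearCombination_apply_single] using h1

/-- Row OE. -/
theorem pf_OE : T_OE := by
  intro K N ι _ _ _ _ w w' h
  classical
  have := Fintype.ofFinite ι
  obtain ⟨g, hg⟩ : ∃ g : N →ₗ[K] (ι → K),
      (Matrix.of fun a b => g (w a) b).det ≠ 0 ∨ (Matrix.of fun a b => g (w' a) b).det ≠ 0 := by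
    rcases h with h | h
    · obtain ⟨g, hg⟩ := exists_coord w h
      refine ⟨g, Or.inl ?_⟩
      have : (Matrix.of fun a b => g (w a) b) = 1 := by
        ext a b
        rw [Matrix.of_apply, hg, Matrix.one_apply, Pi.single_apply]
        simp [eq_comm]
      rw [this, Matrix.det_one]
      exact one_ne_zero
    · obtain ⟨g, hg⟩ := exists_coord w' h
      refine ⟨g, Or.inr ?_⟩
      have : (Matrix.of fun a b => g (w' a) b) = 1 := by
        ext a b
        rw [Matrix.of_apply, hg, Matrix.one_apply, Pi.single_apply]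
        simp [eq_comm]
      rw [this, Matrix.det_one]
      exact one_ne_zero
  refine (det_line _ _ hg).subset ?_
  intro ε hε
  rw [Set.mem_ofPred] at hε ⊢
  by_contra hc
  apply hε
  have hrow := Matrix.linearIndependent_rows_of_det_ne_zero hc
  apply LinearIndependent.of_comp g
  have : (g ∘ fun i => w i + ε • w' i) = (Matrix.of (fun a b => g (w a) b) +
      ε • Matrix.of fun a b => g (w' a) b).row := by
    funext a
    simp only [Function.comp, map_add, map_smul]
    ext b
    simp [Matrix.row]
  rw [this]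
  exact hrow

/-- Row OI. -/
theorem pf_OI : T_OI := by
  intro K V E N ι _ _ _ _ _ _ _ _ _ B Q Q' r h
  classical
  obtain ⟨f, f', hf⟩ : ∃ f f' : Fin r → N, (LinearIndependent K f ∨ LinearIndependent K f') ∧
      ∀ a, ∃ v i, f a = B v (Q i) ∧ f' a = B v (Q' i) := by
    have key : ∀ Q₁ : ι → E, r ≤ finrank K (im B Q₁) → ∃ f : Fin r → N, LinearIndependent K f ∧
        ∀ a, ∃ v i, f a = B v (Q₁ i) := by
      intro Q₁ h₁
      obtain ⟨f, hf, _, hli⟩ := Submodule.exists_fun_fin_finrank_span_eq K
        {z : N | ∃ v i, z = B v (Q₁ i)}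
      refine ⟨fun a => f (Fin.castLE h₁ a), hli.comp _ (Fin.castLE_injective h₁), fun a => ?_⟩
      exact hf _
    rcases h with h | h
    · obtain ⟨f, hli, hf⟩ := key Q h
      choose v i hvi using hf
      exact ⟨f, fun a => B (v a) (Q' (i a)), Or.inl hli, fun a => ⟨v a, i a, hvi a, rfl⟩⟩
    · obtain ⟨f, hli, hf⟩ := key Q' h
      choose v i hvi using hf
      exact ⟨fun a => B (v a) (Q (i a)), f, Or.inr hli, fun a => ⟨v a, i a, rfl, hvi a⟩⟩
  refine (pf_OE K N (Fin r) f f' hf.1).subset ?_
  intro ε hε hli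
  rw [Set.mem_ofPred] at hε
  apply hε
  have hmem : ∀ a, f a + ε • f' a ∈ im B fun i => Q i + ε • Q' i := by
    intro a
    obtain ⟨v, i, h1, h2⟩ := hf.2 a
    rw [h1, h2]
    refine Submodule.subset_span ⟨v, i, ?_⟩
    rw [map_add, map_smul]
  have h2 : LinearIndependent K (fun a => (⟨_, hmem a⟩ : im B fun i => Q i + ε • Q' i)) := by
    apply LinearIndependent.of_comp (im B fun i => Q i + ε • Q' i).subtype
    exact hli
  have h3 := h2.fintype_card_le_finrank
  rwa [Fintype.card_fin] at h3

end Pool.Agent.H92.VG
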