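import Pool.Agent.H95.VG.Targets1

/-!
# Volume growth of meromorphic maps: the operator LL is a divergence
-/

open MeasureTheory Set Filter Topology
open scoped ENNReal NNReal ContDiff ComplexConjugate
open Pool.Agent.H95.VG

namespace Pool.Agent.H92.VG

theorem lev_eq_zero {n : ℕ} {g : V n → ℝ} {y : V n} (h : ∀ᶠ x in 𝓝 y, g x = 0) (v : V n) :
    lev g y v = 0 := by
  have h1 : ∀ᶠ x in 𝓝 y, fderiv ℝ g x = 0 := by
    have := h.eventually_nhds
    filter_upwards [this] with x hx
    have he : g =ᶠ[𝓝 x] fun _ => (0 : ℝ) := hx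
    rw [he.fderiv_eq]
    simp
  have h2 : ∀ u : V n, fderiv ℝ (fun x => fderiv ℝ g x u) y = 0 := by
    intro u
    have he : (fun x => fderiv ℝ g x u) =ᶠ[𝓝 y] fun _ => (0 : ℝ) := by
      filter_upwards [h1] with x hx
      rw [hx]
      rfl
    rw [he.fderiv_eq]
    simp
  unfold lev
  rw [h2, h2]
  simp

theorem nrm2 {E : Type} [NormedAddCommGroup E] [NormedSpace ℝ E] (g : E → ℝ) (y : E) :
    ‖fderiv ℝ (fderiv ℝ g) y‖ = ‖iteratedFDeriv ℝ 2 g y‖ := by
  rw [← norm_iteratedFDeriv_fderiv, norm_iteratedFDeriv_one]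

theorem bd3 {E : Type} [NormedAddCommGroup E] [NormedSpace ℝ E] (g : E → ℝ)
    (h0 : ContDiff ℝ 2 g) (hc : HasCompactSupport g) :
    ∃ C : ℝ, ∀ x, ‖iteratedFDeriv ℝ 2 g x‖ ≤ C := by
  have h1 : Continuous (iteratedFDeriv ℝ 2 g) := h0.continuous_iteratedFDeriv (by norm_num)
  have h2 : HasCompactSupport (iteratedFDeriv ℝ 2 g) := hc.iteratedFDeriv 2
  exact h1.bounded_above_of_compact_support h2

theorem bd2 {E : Type} [NormedAddCommGroup E] [NormedSpace ℝ E] (g : E → ℝ)
    (h0 : ContDiff ℝ 2 g) (hc : HasCompactSupport g) :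
    ∃ C : ℝ, ∀ x, ‖fderiv ℝ g x‖ ≤ C := by
  have h1 : Continuous (fderiv ℝ g) := h0.continuous_fderiv (by norm_num)
  have h2 : HasCompactSupport (fderiv ℝ g) := HasCompactSupport.fderiv ℝ hc
  exact h1.bounded_above_of_compact_support h2

theorem bounds2 {E : Type} [NormedAddCommGroup E] [NormedSpace ℝ E] (g : E → ℝ)
    (h0 : ContDiff ℝ 2 g) (hc : HasCompactSupport g) :
    ∃ C : ℝ, ∀ y, |g y| ≤ C ∧ ‖fderiv ℝ g y‖ ≤ C ∧ ‖fderiv ℝ (fderiv ℝ g) y‖ ≤ C := by
  obtain ⟨C1, hC1⟩ := h0.continuous.bounded_above_of_compact_support hc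
  obtain ⟨C2, hC2⟩ := bd2 g h0 hc
  obtain ⟨C3, hC3⟩ := bd3 g h0 hc
  refine ⟨max C1 (max C2 C3), fun y => ⟨?_, ?_, ?_⟩⟩
  · exact (hC1 y).trans (le_max_left _ _)
  · exact (hC2 y).trans ((le_max_left _ _).trans (le_max_right _ _))
  · rw [nrm2]
    exact (hC3 y).trans ((le_max_right _ _).trans (le_max_right _ _))

/-- Module STA. -/
theorem sta (hOAO : T_OAO) (hSYM : T_SYM) : T_STA := by
  intro n X _ _ ι _ A w f I hw hS φ hφ hφc hφs
  have hms : MeasurableSet (Dp n \ I) := hS.opn.measurableSet
  have hOm : ∀ a, MeasurableSet (Oa A f I a) := fun a => (hOAO n X ι A f I hS a).1.measurableSet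
  have hOs : ∀ a, Oa A f I a ⊆ Dp n \ I := fun a z hz => hz.1
  have hcomp : ∀ a, HasCompactSupport (w a) := fun a =>
    HasCompactSupport.of_support_subset_isCompact (isCompact_closedBall (0 : V n) (3 / 2))
      (fun y hy => hw.supp a y hy)
  have hb : ∀ a, ∃ C : ℝ, ∀ (y : V n) (s : ℝ), |w a y| ≤ C ∧ ‖fderiv ℝ (fun y => w a y) y‖ ≤ C ∧
      ‖fderiv ℝ (fderiv ℝ (fun y => w a y)) y‖ ≤ C := by
    intro a
    obtain ⟨C, hC⟩ := bounds2 (w a) (contDiff_infty.1 (hw.smooth a) 2) (hcomp a)
    exact ⟨C, fun y _ => hC y⟩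
  have sym := fun (a : ι) (k : Fin n) => hSYM n X ι A f I hS a k φ (fun y _ => w a y) (fun _ => 0)
    (3 / 2) (by norm_num) hφ hφc hφs (fun z _ => Filter.Eventually.of_forall (fun _ => rfl))
    (fun _ => contDiff_infty.1 (hw.smooth a) 2) (fun y _ hy => hw.supp a y hy) (hb a)
  -- LL as a sum of indicators
  have hLL : ∀ z ∈ Dp n \ I, LL A w f φ z = ∑ a, ∑ k, (Oa A f I a).indicator
      (fun z => w a (FF A f a z) * lev φ z (cf (FF A f a) k z)) z := by
    intro z hz
    unfold LL
    refine Finset.sum_congr rfl (fun a _ => ?_)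
    rw [Finset.mul_sum]
    refine Finset.sum_congr rfl (fun k _ => ?_)
    by_cases hO : z ∈ Oa A f I a
    · rw [indicator_of_mem hO, Wt, indicator_of_mem hO.2.1]
      rfl
    · rw [indicator_of_notMem hO]
      by_cases hs : f z ∈ (A.φ a).source
      · have : w a (A.φ a (f z)) = 0 := by
          by_contra hne
          apply hO
          refine ⟨hz, hs, ?_⟩
          have := hw.supp a _ hne
          exact Metric.closedBall_subset_ball (by norm_num) this
        rw [Wt, indicator_of_mem hs, this, zero_mul]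
      · rw [Wt, indicator_of_notMem hs, zero_mul]
  have hint : ∀ a k, Integrable ((Oa A f I a).indicator
      (fun z => w a (FF A f a z) * lev φ z (cf (FF A f a) k z))) := fun a k =>
    (integrable_indicator_iff (hOm a)).2 (sym a k).1
  have hint2 : ∀ a k, Integrable ((Oa A f I a).indicator
      (fun z => φ z * ‖(jac (FF A f a) z).det‖ ^ 2 * lev (w a) (FF A f a z) (ek k))) := fun a k =>
    (integrable_indicator_iff (hOm a)).2 (sym a k).2.1
  constructor
  · refine IntegrableOn.congr_fun (f := fun z => ∑ a, ∑ k, (Oa A f I a).indicator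
      (fun z => w a (FF A f a z) * lev φ z (cf (FF A f a) k z)) z) ?_ (fun z hz => (hLL z hz).symm) hms
    exact (integrable_finsetSum _ (fun a _ => integrable_finsetSum _
      (fun k _ => hint a k))).integrableOn
  · rw [setIntegral_congr_fun hms hLL]
    rw [integral_finsetSum _ (fun a _ => (integrable_finsetSum _
      (fun k _ => hint a k)).integrableOn)]
    have h1 : ∀ a, ∫ z in Dp n \ I, ∑ k, (Oa A f I a).indicator
        (fun z => w a (FF A f a z) * lev φ z (cf (FF A f a) k z)) z =
        ∫ z in Dp n \ I, ∑ k, (Oa A f I a).indicator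
        (fun z => φ z * ‖(jac (FF A f a) z).det‖ ^ 2 * lev (w a) (FF A f a z) (ek k)) z := by
      intro a
      rw [integral_finsetSum _ (fun k _ => (hint a k).integrableOn),
        integral_finsetSum _ (fun k _ => (hint2 a k).integrableOn)]
      refine Finset.sum_congr rfl (fun k _ => ?_)
      rw [setIntegral_indicator (hOm a), setIntegral_indicator (hOm a),
        inter_eq_self_of_subset_right (hOs a)]
      exact (sym a k).2.2
    rw [Finset.sum_congr rfl (fun a _ => h1 a),
      ← integral_finsetSum _ (fun a _ => (integrable_finsetSum _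
      (fun k _ => hint2 a k)).integrableOn)]
    rw [← integral_zero (V n) ℝ (μ := volume.restrict (Dp n \ I))]
    refine setIntegral_congr_fun hms (fun z hz => ?_)
    obtain ⟨b, hb1, hb2⟩ := A.cover (f z)
    have hg := hw.gau b (f z) hb1
    have h2 : ∀ a, ∑ k, (Oa A f I a).indicator
        (fun z => φ z * ‖(jac (FF A f a) z).det‖ ^ 2 * lev (w a) (FF A f a z) (ek k)) z =
        (φ z * ‖(jac (FF A f b) z).det‖ ^ 2) * ((A.φ a).source).indicator
          (fun x => tj A b a x * ∑ k, lev (w a) (A.φ a x) (ek k)) (f z) := by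
      intro a
      by_cases hs : f z ∈ (A.φ a).source
      · rw [indicator_of_mem hs]
        by_cases hO : z ∈ Oa A f I a
        · simp only [indicator_of_mem hO]
          rw [← Finset.mul_sum]
          have hj := (hOAO n X ι A f I hS a).2.2.2.2.2 b z hz hs hb1
          rw [hj, Matrix.det_mul, norm_mul, mul_pow]
          unfold tj FF
          ring
        · simp only [indicator_of_notMem hO, Finset.sum_const_zero]
          have hz0 : ∑ k, lev (w a) (A.φ a (f z)) (ek k) = 0 := by
            refine Finset.sum_eq_zero (fun k _ => lev_eq_zero ?_ _)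
            have hnb : A.φ a (f z) ∉ Metric.closedBall (0 : V n) (3 / 2) := by
              intro hmem
              exact hO ⟨hz, hs, Metric.closedBall_subset_ball (by norm_num) hmem⟩
            have hop : IsOpen (Metric.closedBall (0 : V n) (3 / 2))ᶜ :=
              Metric.isClosed_closedBall.isOpen_compl
            filter_upwards [hop.mem_nhds hnb] with y hy
            by_contra hne
            exact hy (hw.supp a y hne)
          rw [hz0]
          ring
      · have hO : z ∉ Oa A f I a := fun h => hs h.2.1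
        simp only [indicator_of_notMem hO, indicator_of_notMem hs, Finset.sum_const_zero, mul_zero]
    change ∑ a, ∑ k, (Oa A f I a).indicator
        (fun z => φ z * ‖(jac (FF A f a) z).det‖ ^ 2 * lev (w a) (FF A f a z) (ek k)) z = 0
    rw [Finset.sum_congr rfl (fun a _ => h2 a), ← Finset.mul_sum, hg, mul_zero]

end Pool.Agent.H92.VG
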